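import Pool.Agent.MP_807c24_nt.KZ20.Ser

/-! Associators in degree at most three. -/

namespace Pool.Agent.MP_807c24_nt.KZ20

open Finset

variable {k : Type} [CommRing k]

/-- strictly upper triangular -/
def SU {m : ℕ} (a : Matrix (Fin m) (Fin m) k) : Prop :=
  ∀ i j : Fin m, (j : ℕ) ≤ i → a i j = 0

theorem su_prod {m : ℕ} (l : List (Matrix (Fin m) (Fin m) k)) (h : ∀ a ∈ l, SU a) :
    ∀ i j : Fin m, (j : ℕ) < i + l.length → l.prod i j = 0 := by
  induction l with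
  | nil =>
    intro i j hij
    have : i ≠ j := by
      intro e
      simp [e] at hij
    simp [Matrix.one_apply_ne this]
  | cons a l ih =>
    intro i j hij
    rw [List.prod_cons, Matrix.mul_apply]
    refine Finset.sum_eq_zero fun r _ => ?_
    by_cases hr : (r : ℕ) ≤ i
    · rw [h a (by simp) i r hr, zero_mul]
    · rw [ih (fun b hb => h b (by simp [hb])) r j (by simp at hij; omega), mul_zero]

/-- A representation of the truncated Drinfeld-Kohno algebra by strictly upper triangular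
matrices. -/
theorem exists_rep {n N : ℕ} (s : Fin n → Fin n → Matrix (Fin (N + 1)) (Fin (N + 1)) k)
    (h0 : ∀ i, s i i = 0) (h1 : ∀ i j, s i j = s j i)
    (h3 : ∀ i j l, i ≠ j → i ≠ l → j ≠ l → s i j * (s i l + s j l) = (s i l + s j l) * s i j)
    (h4 : ∀ i j l m, i ≠ j → i ≠ l → i ≠ m → j ≠ l → j ≠ m → l ≠ m →
      s i j * s l m = s l m * s i j)
    (hu : ∀ i j, SU (s i j)) :
    ∃ g : DK k n N →ₐ[k] Matrix (Fin (N + 1)) (Fin (N + 1)) k, ∀ i j, g (t k N i j) = s i j := by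
  refine ⟨RingQuot.liftAlgHom k ⟨FreeAlgebra.lift k fun p => s p.1 p.2, ?_⟩, fun i j => ?_⟩
  · intro x y hxy
    induction hxy with
    | diag i => simp [h0]
    | symm i j => simp [h1 i j]
    | three i j l a b c => simpa using h3 i j l a b c
    | four i j l m a b c d e f => simpa using h4 i j l m a b c d e f
    | high f =>
      rw [map_list_prod, map_zero]
      ext i j
      refine su_prod _ ?_ i j (by simp; omega)
      intro a ha
      simp only [List.map_ofFn, List.mem_ofFn, Function.comp_apply, FreeAlgebra.lift_ι_apply] at ha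
      obtain ⟨r, rfl⟩ := ha
      exact hu _ _
  · simp [t]

/-- The representation of `t_3` with `t_12 = x`, `t_23 = y`, `t_13 = -x-y`. -/
theorem exists_rep3 {N : ℕ} (x y : Matrix (Fin (N + 1)) (Fin (N + 1)) k) (hx : SU x) (hy : SU y) :
    ∃ g : DK k 3 N →ₐ[k] Matrix (Fin (N + 1)) (Fin (N + 1)) k,
      g (t k N 0 1) = x ∧ g (t k N 1 0) = x ∧ g (t k N 1 2) = y ∧ g (t k N 2 1) = y ∧
        g (t k N 0 2) = -x - y ∧ g (t k N 2 0) = -x - y := by
  obtain ⟨g, hg⟩ := exists_rep (k := k) (n := 3) (N := N)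
    ![![0, x, -x - y], ![x, 0, y], ![-x - y, y, 0]]
    (fun i => by fin_cases i <;> rfl)
    (fun i j => by fin_cases i <;> fin_cases j <;> rfl)
    (fun i j l a b c => by
      fin_cases i <;> fin_cases j <;> fin_cases l <;> simp at a b c ⊢ <;> noncomm_ring)
    (fun i j l m a b c d e f => by omega)
    (fun i j => by
      have hz : SU (0 : Matrix (Fin (N + 1)) (Fin (N + 1)) k) := fun _ _ _ => rfl
      have hs : SU (-x - y) := fun i j h => by simp [hx i j h, hy i j h]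
      fin_cases i <;> fin_cases j <;> assumption)
  exact ⟨g, hg 0 1, hg 1 0, hg 1 2, hg 2 1, hg 0 2, hg 2 0⟩

/-- The abelian representation of `t_4` in which only `t_ab` survives. -/
theorem exists_rep4 (a b : Fin 4) (hab : a ≠ b) :
    ∃ g : DK k 4 1 →ₐ[k] Matrix (Fin 2) (Fin 2) k, ∀ i j, g (t k 1 i j) =
      if (i = a ∧ j = b) ∨ (i = b ∧ j = a) then !![0, 1; 0, 0] else 0 := by
  have sq : (!![0, 1; 0, 0] : Matrix (Fin 2) (Fin 2) k) * !![0, 1; 0, 0] = 0 := by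
    ext i j; fin_cases i <;> fin_cases j <;> simp
  refine exists_rep (k := k) (n := 4) (N := 1) _ (fun i => ?_) (fun i j => ?_)
    (fun i j l _ _ _ => ?_) (fun i j l m _ _ _ _ _ _ => ?_) (fun i j => ?_)
  · rw [if_neg]
    rintro (⟨h1, h2⟩ | ⟨h1, h2⟩) <;> exact hab (by rw [← h1, ← h2])
  · simp only [and_comm, or_comm]
  · split_ifs <;> simp [sq]
  · split_ifs <;> simp [sq]
  · split_ifs
    · intro i j h
      fin_cases i <;> fin_cases j <;> simp at h ⊢
    · exact fun _ _ _ => rfl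

variable [Algebra ℚ k]

omit [Algebra ℚ k] in
theorem pent_rep {N : ℕ} {Φ : Ser k} (h : Pentagon N Φ) {R : Type} [Ring R] [Algebra k R]
    (g : DK k 4 N →ₐ[k] R) (s : Fin 4 → Fin 4 → R) (hg : ∀ i j, g (t k N i j) = s i j) :
    ev N Φ (s 0 1) (s 1 2 + s 1 3) * ev N Φ (s 0 2 + s 1 2) (s 2 3) =
      ev N Φ (s 1 2) (s 2 3) * ev N Φ (s 0 1 + s 0 2) (s 1 3 + s 2 3) * ev N Φ (s 0 1) (s 1 2) := by
  have e := congrArg g h
  simpa only [map_mul, map_ev, map_add, hg] using e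

omit [Algebra ℚ k] in
theorem deg_one {Φ : Ser k} (h0 : Φ [] = 1) (h : Pentagon 1 Φ) : ∀ a, Φ [a] = 0 := by
  have hA : Φ [0] = 0 := by
    obtain ⟨g, hg⟩ := exists_rep4 (k := k) 0 1 (by decide)
    have e := pent_rep h g _ hg
    simp only [ev_one, h0] at e
    have e' := congrFun (congrFun e 0) 1
    simpa [Matrix.mul_apply, Fin.sum_univ_two] using e'
  have hB : Φ [1] = 0 := by
    obtain ⟨g, hg⟩ := exists_rep4 (k := k) 2 3 (by decide)
    have e := pent_rep h g _ hg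
    simp only [ev_one, h0] at e
    have e' := congrFun (congrFun e 0) 1
    simpa [Matrix.mul_apply, Fin.sum_univ_two] using e'
  intro a
  fin_cases a
  · exact hA
  · exact hB

theorem deg_two {μ : k} {Φ : Ser k} (h0 : Φ [] = 1) (h1 : ∀ a, Φ [a] = 0) (h00 : Φ [0, 0] = 0)
    (h11 : Φ [1, 1] = 0) (h10 : Φ [1, 0] = - Φ [0, 1]) (h : Hexagon 2 μ Φ) :
    Φ [0, 1] = (1 / 24 : ℚ) • μ ^ 2 := by
  obtain ⟨u, hu, -, h⟩ := h
  obtain ⟨g, g01, g10, g12, g21, g02, g20⟩ := exists_rep3 (k := k) (N := 2)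
    !![0, 1, 0; 0, 0, 0; 0, 0, 0] !![0, 0, 0; 0, 0, 1; 0, 0, 0]
    (fun i j h => by fin_cases i <;> fin_cases j <;> simp at h ⊢)
    (fun i j h => by fin_cases i <;> fin_cases j <;> simp at h ⊢)
  have e := congrArg g h
  have eu := congrArg g hu
  simp only [map_mul, map_ev, map_ex, map_add, map_one] at e eu
  rw [g02, g21] at eu
  rw [g02, g12, g20, g01] at e
  generalize g u = v at e eu
  have hv : v = !![1, 0, Φ [0, 1]; 0, 1, 0; 0, 0, 1] := by
    have h2 : (!![1, 0, Φ [0, 1]; 0, 1, 0; 0, 0, 1] : Matrix (Fin 3) (Fin 3) k) *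
        ev 2 Φ (- !![0, 1, 0; 0, 0, 0; 0, 0, 0] - !![0, 0, 0; 0, 0, 1; 0, 0, 0])
          !![0, 0, 0; 0, 0, 1; 0, 0, 0] = 1 := by
      simp only [ev_two, h0, h1, h00, h11, h10]
      ext i j
      fin_cases i <;> fin_cases j <;> simp [Matrix.mul_apply, Fin.sum_univ_three]
    rw [← one_mul v, ← h2, mul_assoc, eu, mul_one]
  subst hv
  simp only [ev_two, h0, h1, h00, h11, h10, ex, Finset.sum_range_succ, Finset.sum_range_zero,
    pow_two] at e
  have e' := congrFun (congrFun e 0) 2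
  simp [Matrix.mul_apply, Fin.sum_univ_three, Nat.factorial] at e'
  simp only [Algebra.smul_def] at e' ⊢
  have c1 : algebraMap ℚ k 2⁻¹ * 2 = 1 := by
    rw [← map_ofNat (algebraMap ℚ k) 2, ← map_mul]; norm_num
  have c2 : algebraMap ℚ k (1 / 24) * 24 = 1 := by
    rw [← map_ofNat (algebraMap ℚ k) 24, ← map_mul]; norm_num
  generalize algebraMap ℚ k 2⁻¹ = a at e' c1
  generalize algebraMap ℚ k (1 / 24) = b at c2 ⊢
  linear_combination (-Φ [0, 1]) * c2 - 8 * b * e' + b * μ ^ 2 * (-4 * a ^ 2 + 2 * a + 1) * c1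

omit [Algebra ℚ k] in
theorem deg_three {Φ : Ser k} (h0 : Φ [] = 1) (h1 : ∀ a, Φ [a] = 0)
    (a1 : Φ [0, 0] = 0) (a2 : Φ [1, 1] = 0) (a3 : Φ [1, 0] = - Φ [0, 1])
    (a4 : Φ [0, 0, 0] = 0) (a5 : Φ [1, 1, 1] = 0) (a6 : Φ [1, 0, 0] = Φ [0, 0, 1])
    (a7 : Φ [0, 1, 0] = -2 * Φ [0, 0, 1]) (a8 : Φ [1, 1, 0] = Φ [0, 1, 1])
    (a9 : Φ [1, 0, 1] = -2 * Φ [0, 1, 1])
    (h : Duality 3 Φ) : Φ [0, 1, 1] = - Φ [0, 0, 1] := by
  obtain ⟨g, g01, g10, g12, g21, g02, g20⟩ := exists_rep3 (k := k) (N := 3)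
    !![0, 1, 0, 0; 0, 0, 1, 0; 0, 0, 0, 0; 0, 0, 0, 0]
    !![0, 0, 0, 0; 0, 0, 0, 0; 0, 0, 0, 1; 0, 0, 0, 0]
    (fun i j h => by fin_cases i <;> fin_cases j <;> simp at h ⊢)
    (fun i j h => by fin_cases i <;> fin_cases j <;> simp at h ⊢)
  have e := congrArg g h
  simp only [map_mul, map_ev, map_one] at e
  rw [g01, g12, g21, g10] at e
  simp only [ev_three, h0, h1, a1, a2, a3, a4, a5, a6, a7, a8, a9] at e
  have e' := congrFun (congrFun e 0) 3
  simp [Matrix.mul_apply, Fin.sum_univ_four] at e'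
  linear_combination e'

/-- The coefficients of `log Φ` in degree at most three in terms of `μ` and one parameter. -/
def Low (μ d : k) (L : Ser k) : Prop :=
  LieLow L ∧ (∀ a, L [a] = 0) ∧ L [0, 1] = (1 / 24 : ℚ) • μ ^ 2 ∧ L [0, 0, 1] = d ∧ L [0, 1, 1] = -d

theorem assoc_low {μ : k} {Φ : Ser k} (h : IsAssociator μ Φ) : ∃ d, Low μ d (log Φ) := by
  obtain ⟨-, hL, h⟩ := h
  have h0 := hL.1
  have h1 := deg_one h0 (h 1).1
  have hl := lieLow_log hL
  have hl' := hl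
  obtain ⟨-, a1, a2, a3, a4, a5, a6, a7, a8, a9⟩ := hl'
  simp only [log_two Φ h0 h1, log_three Φ h0 h1] at a1 a2 a3 a4 a5 a6 a7 a8 a9
  have h2 := deg_two h0 h1 a1 a2 a3 (h 2).2.1
  have hd := (h 3).2.2
  have h3 : Φ [0, 1, 1] = - Φ [0, 0, 1] := deg_three h0 h1 a1 a2 a3 a4 a5 a6 a7 a8 a9 hd
  refine ⟨Φ [0, 0, 1], hl, fun a => ?_, ?_, ?_, ?_⟩
  · rw [log_one Φ h0, h1]
  · rw [log_two Φ h0 h1, h2]
  · rw [log_three Φ h0 h1]
  · rw [log_three Φ h0 h1, h3]

end Pool.Agent.MP_807c24_nt.KZ20
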