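import Mathlib

/-! Drinfeld associators over a commutative `ℚ`-algebra and the KZ associator. -/

namespace Pool.Agent.MP_807c24_nt.KZ20

open Finset

/-- Words in the two letters `A = 0`, `B = 1`. -/
abbrev Word := List (Fin 2)

/-- Formal power series in the non-commuting letters `A`, `B`: a coefficient for each word. -/
abbrev Ser (k : Type) := Word → k

section series
variable {k : Type} [CommRing k] [Algebra ℚ k]

/-- The series consisting of the single word `u`. -/
def word (u : Word) : Ser k := fun w => if w = u then 1 else 0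

/-- The product of two series. -/
def mul (x y : Ser k) : Ser k :=
  fun w => ∑ i ∈ range (w.length + 1), x (w.take i) * y (w.drop i)

/-- Powers of a series. -/
def pow (x : Ser k) : ℕ → Ser k
  | 0 => word []
  | m + 1 => mul x (pow x m)

/-- `log Φ = ∑_{m ≥ 1} (-1)^(m+1) (Φ - 1)^m / m` for a series with constant term `1`. -/
def log (Φ : Ser k) : Ser k :=
  fun w => ∑ m ∈ Icc 1 w.length, ((-1 : ℚ) ^ (m + 1) / m) • pow (Φ - word []) m w

/-- Iterated brackets of the letters. -/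
inductive IsBracket : Ser k → Prop
  | letter (a : Fin 2) : IsBracket (word [a])
  | bracket {x y : Ser k} : IsBracket x → IsBracket y → IsBracket (mul x y - mul y x)

/-- `Φ ∈ exp (completed free Lie algebra)`: constant term `1`, and every homogeneous part of
`log Φ` is a `k`-linear combination of iterated brackets. -/
def IsExpLie (Φ : Ser k) : Prop :=
  Φ [] = 1 ∧ ∀ n : ℕ, (fun w => if w.length = n then log Φ w else 0) ∈
    Submodule.span k {x : Ser k | IsBracket x}

/-- `Φ(x, y)` up to degree `N`. -/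
def ev {R : Type} [Ring R] [Algebra k R] (N : ℕ) (Φ : Ser k) (x y : R) : R :=
  ∑ n ∈ range (N + 1), ∑ f : Fin n → Fin 2,
    Φ (List.ofFn f) • (List.ofFn fun i => ![x, y] (f i)).prod

/-- `exp (c x)` up to degree `N`. -/
def ex {R : Type} [Ring R] [Algebra k R] (N : ℕ) (c : k) (x : R) : R :=
  ∑ m ∈ range (N + 1), ((1 / m.factorial : ℚ) • c ^ m) • x ^ m

end series

/-- The Drinfeld-Kohno relations on generators `t_ij`, together with: every product of `N + 1`
generators is zero. -/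
inductive Rel (k : Type) [CommRing k] (n N : ℕ) :
    FreeAlgebra k (Fin n × Fin n) → FreeAlgebra k (Fin n × Fin n) → Prop
  | diag (i : Fin n) : Rel k n N (.ι k (i, i)) 0
  | symm (i j : Fin n) : Rel k n N (.ι k (i, j)) (.ι k (j, i))
  | three (i j l : Fin n) : i ≠ j → i ≠ l → j ≠ l →
      Rel k n N (.ι k (i, j) * (.ι k (i, l) + .ι k (j, l))) ((.ι k (i, l) + .ι k (j, l)) * .ι k (i, j))
  | four (i j l m : Fin n) : i ≠ j → i ≠ l → i ≠ m → j ≠ l → j ≠ m → l ≠ m →
      Rel k n N (.ι k (i, j) * .ι k (l, m)) (.ι k (l, m) * .ι k (i, j))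
  | high (f : Fin (N + 1) → Fin n × Fin n) :
      Rel k n N (List.ofFn fun a => FreeAlgebra.ι k (f a)).prod 0

/-- The enveloping algebra of `t_n` over `k` modulo degree `> N`. -/
abbrev DK (k : Type) [CommRing k] (n N : ℕ) := RingQuot (Rel k n N)

/-- The generator `t_ij` (indices start at `0`). -/
noncomputable def t (k : Type) [CommRing k] {n : ℕ} (N : ℕ) (i j : Fin n) : DK k n N :=
  RingQuot.mkAlgHom k (Rel k n N) (.ι k (i, j))

section associators
variable {k : Type} [CommRing k] [Algebra ℚ k]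

/-- The pentagon equation modulo degree `> N`. -/
def Pentagon (N : ℕ) (Φ : Ser k) : Prop :=
  let s : Fin 4 → Fin 4 → DK k 4 N := t k N
  ev N Φ (s 0 1) (s 1 2 + s 1 3) * ev N Φ (s 0 2 + s 1 2) (s 2 3) =
    ev N Φ (s 1 2) (s 2 3) * ev N Φ (s 0 1 + s 0 2) (s 1 3 + s 2 3) * ev N Φ (s 0 1) (s 1 2)

/-- The hexagon equation modulo degree `> N`; `u` is the inverse of `Φ^{1,3,2}`. -/
def Hexagon (N : ℕ) (μ : k) (Φ : Ser k) : Prop :=
  let s : Fin 3 → Fin 3 → DK k 3 N := t k N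
  let c : k := (1 / 2 : ℚ) • μ
  ∃ u : DK k 3 N, ev N Φ (s 0 2) (s 2 1) * u = 1 ∧ u * ev N Φ (s 0 2) (s 2 1) = 1 ∧
    ex N c (s 0 2 + s 1 2) =
      ev N Φ (s 2 0) (s 0 1) * ex N c (s 0 2) * u * ex N c (s 1 2) * ev N Φ (s 0 1) (s 1 2)

/-- The duality equation modulo degree `> N`. -/
def Duality (N : ℕ) (Φ : Ser k) : Prop :=
  let s : Fin 3 → Fin 3 → DK k 3 N := t k N
  ev N Φ (s 0 1) (s 1 2) * ev N Φ (s 2 1) (s 1 0) = 1

/-- `(μ, Φ) ∈ M(k)`. -/
def IsAssociator (μ : k) (Φ : Ser k) : Prop :=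
  IsUnit μ ∧ IsExpLie Φ ∧ ∀ N : ℕ, Pentagon N Φ ∧ Hexagon N μ Φ ∧ Duality N Φ

/-- The point `μ`, coefficients of `log Φ`. -/
def point (μ : k) (Φ : Ser k) : Option Word → k
  | none => μ
  | some w => log Φ w

end associators

/-- The weight: `1` for `μ`, the length for the coefficient of a word. -/
def wt : Option Word → ℕ
  | none => 1
  | some w => w.length

/-- `exp (c a)` for a letter `a`. -/
noncomputable def expLetter (a : Fin 2) (c : ℝ) : Ser ℝ :=
  fun w => if w = List.replicate w.length a then c ^ w.length / w.length.factorial else 0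

/-- `G' = (A / z + B / (z - 1)) G` on `(0, 1)`, coefficient by coefficient. -/
def SolvesKZ (G : ℝ → Ser ℝ) : Prop :=
  ∀ z ∈ Set.Ioo (0 : ℝ) 1, ∀ w : Word, HasDerivAt (fun s => G s w)
    (mul (z⁻¹ • word [0] + (z - 1)⁻¹ • word [1]) (G z) w) z

/-- `Φ = G₁⁻¹ G₀` with `G₀(z) z^(-A) → 1` as `z → 0⁺` and `G₁(z) (1 - z)^(-B) → 1` as `z → 1⁻`. -/
def IsKZ (Φ : Ser ℝ) : Prop :=
  ∃ G₀ G₁ : ℝ → Ser ℝ, SolvesKZ G₀ ∧ SolvesKZ G₁ ∧
    (∀ w, Filter.Tendsto (fun z => mul (G₀ z) (expLetter 0 (-Real.log z)) w)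
      (nhdsWithin 0 (Set.Ioi 0)) (nhds (word [] w))) ∧
    (∀ w, Filter.Tendsto (fun z => mul (G₁ z) (expLetter 1 (-Real.log (1 - z))) w)
      (nhdsWithin 1 (Set.Iio 1)) (nhds (word [] w))) ∧
    ∀ z ∈ Set.Ioo (0 : ℝ) 1, mul (G₁ z) Φ = G₀ z

end Pool.Agent.MP_807c24_nt.KZ20
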