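import Pool.Agent.MP_807c24_nt.KZ20.Assoc

/-! Polynomials of small weight evaluated at a point with `Low`. -/

namespace Pool.Agent.MP_807c24_nt.KZ20

open MvPolynomial

/-- The value of `P` at every low point is `a μ^j + b d`. -/
def Val (j : ℕ) (a b : ℚ) (P : MvPolynomial (Option Word) ℚ) : Prop :=
  ∀ (k : Type) [CommRing k] [Algebra ℚ k] (μ d : k) (Φ : Ser k), Low μ d (log Φ) →
    aeval (point μ Φ) P = a • μ ^ j + b • d

def Good (j : ℕ) (P : MvPolynomial (Option Word) ℚ) : Prop :=
  ∃ a b : ℚ, Val j a b P ∧ (j ≠ 3 → b = 0) ∧ (Odd j → a = 0)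

theorem good_X (w : Word) (hw : w.length ≤ 3) : Good w.length (X (some w)) := by
  have key : ∀ (a b : ℚ), (∀ (k : Type) [CommRing k] [Algebra ℚ k] (μ d : k) (L : Ser k),
      Low μ d L → L w = a • μ ^ w.length + b • d) → Val w.length a b (X (some w)) := by
    intro a b h k _ _ μ d Φ hl
    rw [aeval_X]
    exact h k μ d _ hl
  match w, hw with
  | [], _ => exact ⟨0, 0, key _ _ fun k _ _ μ d L h => by simp [h.1.1], by simp, by simp⟩
  | [a], _ => exact ⟨0, 0, key _ _ fun k _ _ μ d L h => by simp [h.2.1], by simp, by simp⟩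
  | [a, b], _ =>
    fin_cases a <;> fin_cases b
    · exact ⟨0, 0, key _ _ fun k _ _ μ d L h => by simpa using h.1.2.1, by simp, by simp⟩
    · exact ⟨1 / 24, 0, key _ _ fun k _ _ μ d L h => by simpa using h.2.2.1, by simp,
        by simp⟩
    · refine ⟨-(1 / 24), 0, key _ _ fun k _ _ μ d L h => ?_, by simp, by simp⟩
      have := h.1.2.2.2.1
      rw [h.2.2.1] at this
      simpa using this
    · exact ⟨0, 0, key _ _ fun k _ _ μ d L h => by simpa using h.1.2.2.1, by simp, by simp⟩
  | [a, b, c], _ =>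
    have two : ∀ (k : Type) [CommRing k] [Algebra ℚ k] (d : k), (2 : ℚ) • d = 2 * d := by
      intro k _ _ d
      rw [two_smul, two_mul]
    fin_cases a <;> fin_cases b <;> fin_cases c
    · exact ⟨0, 0, key _ _ fun k _ _ μ d L h => by simpa using h.1.2.2.2.2.1, by simp, by simp⟩
    · exact ⟨0, 1, key _ _ fun k _ _ μ d L h => by simpa using h.2.2.2.1, by simp, by simp⟩
    · refine ⟨0, -2, key _ _ fun k _ _ μ d L h => ?_, by simp, by simp⟩
      have := h.1.2.2.2.2.2.2.2.1
      rw [h.2.2.2.1] at this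
      simpa [two] using this
    · exact ⟨0, -1, key _ _ fun k _ _ μ d L h => by simpa using h.2.2.2.2, by simp, by simp⟩
    · refine ⟨0, 1, key _ _ fun k _ _ μ d L h => ?_, by simp, by simp⟩
      have := h.1.2.2.2.2.2.2.1
      rw [h.2.2.2.1] at this
      simpa using this
    · refine ⟨0, 2, key _ _ fun k _ _ μ d L h => ?_, by simp, by simp⟩
      have := h.1.2.2.2.2.2.2.2.2.2
      rw [h.2.2.2.2] at this
      simpa [two] using this
    · refine ⟨0, -1, key _ _ fun k _ _ μ d L h => ?_, by simp, by simp⟩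
      have := h.1.2.2.2.2.2.2.2.2.1
      rw [h.2.2.2.2] at this
      simpa using this
    · exact ⟨0, 0, key _ _ fun k _ _ μ d L h => by simpa using h.1.2.2.2.2.2.1, by simp, by simp⟩
  | _ :: _ :: _ :: _ :: _, hw => simp at hw; omega

theorem good_one : Good 0 1 := ⟨1, 0, fun k _ _ μ d Φ _ => by simp, by simp, by simp⟩

theorem good_mul {i j : ℕ} {P Q : MvPolynomial (Option Word) ℚ} (hP : Good i P) (hQ : Good j Q)
    (hs : i + j ≤ 3) : Good (i + j) (P * Q) := by
  obtain ⟨a, b, hv, hb, ha⟩ := hP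
  obtain ⟨a', b', hv', hb', ha'⟩ := hQ
  refine ⟨a * a', a * b' + a' * b, fun k _ _ μ d Φ hl => ?_, fun h => ?_, fun h => ?_⟩
  · rw [map_mul, hv k μ d Φ hl, hv' k μ d Φ hl]
    by_cases hi : i = 3
    · have hj : j = 0 := by omega
      rw [hb' (by omega), hi, hj]
      simp only [Algebra.smul_def, map_mul, map_add, map_zero]
      ring
    · by_cases hj : j = 3
      · have hi' : i = 0 := by omega
        rw [hb hi, hi', hj]
        simp only [Algebra.smul_def, map_mul, map_add, map_zero]
        ring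
      · rw [hb hi, hb' hj]
        simp only [Algebra.smul_def, map_mul, map_add, map_zero]
        ring
  · rw [hb (by omega), hb' (by omega)]
    ring
  · rcases Nat.even_or_odd i with hi | hi
    · rw [ha' (by rw [Nat.odd_add] at h; exact Nat.not_even_iff_odd.1 fun hj =>
        (Nat.not_odd_iff_even.2 hi) (h.2 hj)), mul_zero]
    · rw [ha hi, zero_mul]

theorem good_pow (w : Word) (n : ℕ) (h : n * w.length ≤ 3) :
    Good (n * w.length) (X (some w) ^ n) := by
  induction n with
  | zero => simpa using good_one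
  | succ n ih =>
    rw [Nat.succ_mul] at h ⊢
    rw [pow_succ]
    exact good_mul (ih (by omega)) (good_X w (by omega)) h

/-- Monomials without `μ`. -/
theorem good_mon (s : Option Word →₀ ℕ) (h0 : s none = 0) (hs : Finsupp.weight wt s ≤ 3) :
    Good (Finsupp.weight wt s) (monomial s 1) := by
  induction s using Finsupp.induction_linear with
  | zero => simpa using good_one
  | add f g hf hg =>
    rw [map_add] at hs ⊢
    simp only [Finsupp.add_apply] at h0
    have e : (monomial (f + g) (1 : ℚ)) = monomial f 1 * monomial g 1 := by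
      rw [monomial_mul, mul_one]
    rw [e]
    exact good_mul (hf (by omega) (by omega)) (hg (by omega) (by omega)) hs
  | single v n =>
    rw [← X_pow_eq_monomial]
    cases v with
    | none =>
      have : n = 0 := by simpa using h0
      subst this
      simpa using good_one
    | some w =>
      rw [Finsupp.weight_single] at hs ⊢
      exact good_pow w n hs

/-- The value of `P` at low points is a fixed rational combination of six quantities. -/
def Six (P : MvPolynomial (Option Word) ℚ) : Prop :=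
  ∃ a : Fin 6 → ℚ, ∀ (k : Type) [CommRing k] [Algebra ℚ k] (μ d : k) (Φ : Ser k),
    Low μ d (log Φ) → aeval (point μ Φ) P =
      a 0 • (1 : k) + a 1 • μ ^ 2 + a 2 • d + a 3 • μ + a 4 • μ ^ 3 + a 5 • (μ * d)

theorem six_mon (s : Option Word →₀ ℕ) (c : ℚ)
    (hs : Finsupp.weight wt s ≤ 3 ∨ (Finsupp.weight wt s = 4 ∧ Odd (s none))) :
    Six (monomial s c) := by
  have e : s = Finsupp.single none (s none) + s.erase none := (Finsupp.single_add_erase _ _).symm
  have hw : Finsupp.weight wt s = s none + Finsupp.weight wt (s.erase none) := by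
    conv_lhs => rw [e, map_add, Finsupp.weight_single]
    simp [wt]
  have hm : monomial s c = C c * (X none ^ s none * monomial (s.erase none) 1) := by
    rw [X_pow_eq_monomial, monomial_mul, C_mul_monomial, ← e]
    simp
  have hj : Finsupp.weight wt (s.erase none) ≤ 3 := by
    rcases hs with h | ⟨h, r, hr⟩ <;> omega
  obtain ⟨a, b, hv, hb, ha⟩ := good_mon (s.erase none) (by simp) hj
  rw [hw] at hs
  rw [hm]
  generalize Finsupp.weight wt (s.erase none) = j at *
  generalize monomial (s.erase none) (1 : ℚ) = Q at *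
  generalize s none = m at *
  have key : ∀ (k : Type) [CommRing k] [Algebra ℚ k] (μ d : k) (Φ : Ser k), Low μ d (log Φ) →
      aeval (point μ Φ) (C c * (X none ^ m * Q)) = (c * a) • μ ^ (m + j) + (c * b) • (μ ^ m * d) := by
    intro k _ _ μ d Φ hl
    rw [map_mul, map_mul, map_pow, aeval_X, aeval_C, hv k μ d Φ hl]
    simp only [Algebra.smul_def, map_mul, point]
    ring
  by_cases h3 : j = 3
  · have ha0 : a = 0 := ha (by rw [h3]; decide)
    have : m = 0 ∨ m = 1 := by omega
    rcases this with rfl | rfl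
    · exact ⟨![0, 0, c * b, 0, 0, 0], fun k _ _ μ d Φ hl => by rw [key k μ d Φ hl]; simp [ha0]⟩
    · exact ⟨![0, 0, 0, 0, 0, c * b], fun k _ _ μ d Φ hl => by rw [key k μ d Φ hl]; simp [ha0]⟩
  · have hb0 : b = 0 := hb h3
    rcases hs with h | ⟨h, r, hr⟩
    · have : m + j = 0 ∨ m + j = 1 ∨ m + j = 2 ∨ m + j = 3 := by omega
      rcases this with h | h | h | h
      · exact ⟨![c * a, 0, 0, 0, 0, 0], fun k _ _ μ d Φ hl => by
          rw [key k μ d Φ hl, h]; simp [hb0]⟩
      · exact ⟨![0, 0, 0, c * a, 0, 0], fun k _ _ μ d Φ hl => by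
          rw [key k μ d Φ hl, h]; simp [hb0]⟩
      · exact ⟨![0, c * a, 0, 0, 0, 0], fun k _ _ μ d Φ hl => by
          rw [key k μ d Φ hl, h]; simp [hb0]⟩
      · exact ⟨![0, 0, 0, 0, c * a, 0], fun k _ _ μ d Φ hl => by
          rw [key k μ d Φ hl, h]; simp [hb0]⟩
    · have ha0 : a = 0 := ha ⟨1 - r, by omega⟩
      exact ⟨0, fun k _ _ μ d Φ hl => by rw [key k μ d Φ hl]; simp [ha0, hb0]⟩

theorem six_add {P Q : MvPolynomial (Option Word) ℚ} (hP : Six P) (hQ : Six Q) : Six (P + Q) := by
  obtain ⟨a, ha⟩ := hP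
  obtain ⟨b, hb⟩ := hQ
  refine ⟨a + b, fun k _ _ μ d Φ hl => ?_⟩
  rw [map_add, ha k μ d Φ hl, hb k μ d Φ hl]
  simp only [Pi.add_apply, add_smul]
  abel

theorem six (P : MvPolynomial (Option Word) ℚ)
    (h : ∀ s ∈ P.support, Finsupp.weight wt s ≤ 3 ∨ (Finsupp.weight wt s = 4 ∧ Odd (s none))) :
    Six P := by
  rw [P.as_sum]
  exact Finset.sum_induction _ Six (fun _ _ => six_add) ⟨0, fun k _ _ μ d Φ _ => by simp⟩
    fun s hs => six_mon s _ (h s hs)

end Pool.Agent.MP_807c24_nt.KZ20
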