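import Pool.Agent.MP_807c24_nt.KZ20.Values
import Pool.Agent.MP_807c24_nt.KZ20.Poly
import Pool.Agent.MP_807c24_nt.Z23.Main

/-! Assembly: injectivity in small weight. -/

namespace Pool.Agent.MP_807c24_nt.KZ20

open Finset

theorem mul_cancel {x y y' : Ser ℝ} (hx : x [] = 1) (h : ∀ w, mul x y w = mul x y' w) : y = y' := by
  funext w
  induction hn : w.length using Nat.strong_induction_on generalizing w with
  | _ n ih =>
    have := h w
    simp only [mul, Finset.sum_range_succ', List.take_zero, List.drop_zero, hx, one_mul] at this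
    have e : ∀ i ∈ range w.length, x (w.take (i + 1)) * y (w.drop (i + 1)) =
        x (w.take (i + 1)) * y' (w.drop (i + 1)) := by
      intro i hi
      rw [ih (w.drop (i + 1)).length
        (by simp only [List.length_drop, ← hn]; have := mem_range.1 hi; omega) _ rfl]
    rw [Finset.sum_congr rfl e] at this
    exact add_left_cancel this

theorem isKZ_unique {Φ Ψ : Ser ℝ} (h : IsKZ Φ) (h' : IsKZ Ψ) : Φ = Ψ := by
  have hx : (1 / 2 : ℝ) ∈ Set.Ioo (0 : ℝ) 1 := by norm_num
  exact mul_cancel (x := fun u => g (u.map Fin.rev) (1 - 1 / 2)) rfl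
    fun w => (connection h hx w).symm.trans (connection h' hx w)

theorem li_eq (k : ℕ) : Li k 1 = H13.zr k := by simp [Li, H13.zr]

theorem main {Φ : Ser ℝ} (h : IsKZ Φ) (P : MvPolynomial (Option Word) ℚ)
    (hP : ∀ s ∈ P.support, Finsupp.weight wt s ≤ 3 ∨ (Finsupp.weight wt s = 4 ∧ Odd (s none)))
    (h0 : MvPolynomial.aeval (point (2 * Real.pi * Complex.I) fun w => (Φ w : ℂ)) P = 0)
    (k : Type) [CommRing k] [Algebra ℚ k] (μ : k) (Ψ : Ser k) (hΨ : IsAssociator μ Ψ) :
    MvPolynomial.aeval (point μ Ψ) P = 0 := by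
  obtain ⟨a, ha⟩ := six P hP
  obtain ⟨d, hd⟩ := assoc_low hΨ
  have e2 : riemannZeta 2 = (Li 2 1 : ℝ) := by
    rw [li_eq]; exact Z23.FinalP.zeta_eq (k := 2) (by norm_num)
  have e3 : riemannZeta 3 = (Li 3 1 : ℝ) := by
    rw [li_eq]; exact Z23.FinalP.zeta_eq (k := 3) (by norm_num)
  have hμ : (2 * Real.pi * Complex.I : ℂ) ^ 2 = -24 * (Li 2 1 : ℝ) := by
    rw [li_eq, Z23.FinalP.zr_two, mul_pow, Complex.I_sq]
    push_cast
    ring
  have h1 := ha ℂ _ _ _ (kz_low h hμ)
  have h2 := Fintype.linearIndependent_iff.1 (Z23.indep6 Z23.coreB Z23.piSq)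
    ![a 0, -24 * a 1, -a 2, a 3, -24 * a 4, -a 5] (by
      rw [← h0, h1, pow_succ _ 2, hμ, ← e2, ← e3]
      simp only [Fin.sum_univ_six, Rat.smul_def, Matrix.cons_val_zero, Matrix.cons_val_one,
        Matrix.cons_val]
      push_cast
      ring)
  have a0 : a 0 = 0 := h2 0
  have a1 : a 1 = 0 := by simpa using h2 1
  have a2 : a 2 = 0 := by simpa using h2 2
  have a3 : a 3 = 0 := h2 3
  have a4 : a 4 = 0 := by simpa using h2 4
  have a5 : a 5 = 0 := by simpa using h2 5
  rw [ha k μ d Ψ hd, a0, a1, a2, a3, a4, a5]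
  simp

end Pool.Agent.MP_807c24_nt.KZ20
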