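import Pool.Agent.MP_807c24_nt.Z23.Main

namespace Pool.Agent.MP_807c24_nt.KZ20.OneZeta2Zeta3

theorem result :
    LinearIndependent ℚ ![(1 : ℂ), riemannZeta 2, riemannZeta 3, 2 * Real.pi * Complex.I,
      2 * Real.pi * Complex.I * riemannZeta 2, 2 * Real.pi * Complex.I * riemannZeta 3] :=
  Pool.Agent.MP_807c24_nt.Z23.indep6 Pool.Agent.MP_807c24_nt.Z23.coreB
    Pool.Agent.MP_807c24_nt.Z23.piSq

end Pool.Agent.MP_807c24_nt.KZ20.OneZeta2Zeta3
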