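import Pool.Agent.MP_807c24_nt.KZ20.Ser

/-! Iterated integrals: the solution of the KZ equation normalised at `0`. -/

namespace Pool.Agent.MP_807c24_nt.KZ20

open Set Filter Topology Asymptotics MeasureTheory

theorem prim {h : ℝ → ℝ} (hc : ContinuousOn h (Ioo 0 1))
    (hb : h =O[𝓝[>] 0] fun t : ℝ => t ^ (-(1 / 2) : ℝ)) :
    (∀ z ∈ Ioo (0 : ℝ) 1, HasDerivAt (fun s => ∫ t in (0 : ℝ)..s, h t) (h z) z) ∧
      (fun s => ∫ t in (0 : ℝ)..s, h t) =O[𝓝[>] 0] fun s : ℝ => s ^ (1 / 2 : ℝ) := by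
  obtain ⟨C, hC⟩ := hb.bound
  obtain ⟨δ, hδ, hδ'⟩ := (mem_nhdsGT_iff_exists_Ioo_subset).1
    (hC.and (Ioo_mem_nhdsGT (zero_lt_one' ℝ)))
  have hδ0 : 0 < δ := hδ
  have bd : ∀ t ∈ Ioo (0 : ℝ) δ, ‖h t‖ ≤ C * t ^ (-(1 / 2) : ℝ) := by
    intro t ht
    have := (hδ' ht).1
    rwa [Real.norm_of_nonneg (Real.rpow_nonneg ht.1.le _)] at this
  have ri : ∀ s : ℝ, IntervalIntegrable (fun t : ℝ => C * t ^ (-(1 / 2) : ℝ)) volume 0 s :=
    fun s => (intervalIntegral.intervalIntegrable_rpow' (by norm_num)).const_mul C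
  have i0 : ∀ s ∈ Ioo (0 : ℝ) δ, IntervalIntegrable h volume 0 s := by
    intro s hs
    have hsub : uIoc 0 s ⊆ Ioo 0 δ := by
      rw [uIoc_of_le hs.1.le]
      exact fun t ht => ⟨ht.1, ht.2.trans_lt hs.2⟩
    refine (ri s).mono_fun' ?_ ?_
    · exact (hc.mono fun t ht => (hδ' (hsub ht)).2).aestronglyMeasurable measurableSet_uIoc
    · exact (ae_restrict_iff' measurableSet_uIoc).2 (ae_of_all _ fun t ht => bd t (hsub ht))
  have i1 : ∀ z ∈ Ioo (0 : ℝ) 1, IntervalIntegrable h volume 0 z := by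
    intro z hz
    have hm : min z (δ / 2) ∈ Ioo (0 : ℝ) δ :=
      ⟨lt_min hz.1 (by linarith), (min_le_right _ _).trans_lt (by linarith)⟩
    refine (i0 _ hm).trans (ContinuousOn.intervalIntegrable (hc.mono ?_))
    rw [uIcc_of_le (min_le_left _ _)]
    exact fun t ht => ⟨hm.1.trans_le ht.1, ht.2.trans_lt hz.2⟩
  refine ⟨fun z hz => ?_, ?_⟩
  · exact intervalIntegral.integral_hasDerivAt_right (i1 z hz)
      (hc.stronglyMeasurableAtFilter isOpen_Ioo z hz) (hc.continuousAt (Ioo_mem_nhds hz.1 hz.2))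
  · refine IsBigO.of_bound (2 * C) ?_
    filter_upwards [Ioo_mem_nhdsGT hδ0] with s hs
    have h1 := intervalIntegral.norm_integral_le_of_norm_le (μ := volume) hs.1.le
      (ae_of_all _ fun t (ht : t ∈ Ioc 0 s) => bd t ⟨ht.1, ht.2.trans_lt hs.2⟩) (ri s)
    rw [intervalIntegral.integral_const_mul, integral_rpow (Or.inl (by norm_num))] at h1
    rw [Real.norm_of_nonneg (Real.rpow_nonneg hs.1.le _)]
    have e : (-(1 / 2) : ℝ) + 1 = 1 / 2 := by norm_num
    rw [e, Real.zero_rpow (by norm_num)] at h1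
    linarith

theorem log_pow_isBigO (n : ℕ) {r : ℝ} (hr : r < 0) :
    (fun t : ℝ => Real.log t ^ n) =O[𝓝[>] 0] fun t : ℝ => t ^ r := by
  have h := (isLittleO_abs_log_rpow_rpow_nhdsGT_zero (n : ℝ) hr).isBigO
  refine IsBigO.trans (IsBigO.of_bound 1 (Eventually.of_forall fun t => ?_)) h
  simp [Real.rpow_natCast]

/-- `f = O(√t)` at `0⁺`. -/
def Small (f : ℝ → ℝ) : Prop := f =O[𝓝[>] 0] fun s : ℝ => s ^ (1 / 2 : ℝ)

theorem Small.mul_log_pow {f : ℝ → ℝ} (hf : Small f) (n : ℕ) :
    Tendsto (fun t => f t * Real.log t ^ n) (𝓝[>] 0) (𝓝 0) := by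
  have h := IsBigO.mul hf (log_pow_isBigO n (r := -(1 / 4)) (by norm_num))
  refine h.trans_tendsto ?_
  have h2 : Tendsto (fun t : ℝ => t ^ (1 / 4 : ℝ)) (𝓝[>] 0) (𝓝 0) := by
    have := (Real.continuousAt_rpow_const 0 (1 / 4) (Or.inr (by norm_num))).tendsto
    rw [Real.zero_rpow (by norm_num)] at this
    exact this.mono_left nhdsWithin_le_nhds
  refine h2.congr' ?_
  filter_upwards [self_mem_nhdsWithin] with t ht
  rw [← Real.rpow_add ht]
  norm_num

theorem Small.tendsto {f : ℝ → ℝ} (hf : Small f) : Tendsto f (𝓝[>] 0) (𝓝 0) := by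
  simpa using hf.mul_log_pow 0

theorem const_of_deriv {f : ℝ → ℝ} (hf : ∀ z ∈ Ioo (0 : ℝ) 1, HasDerivAt f 0 z)
    {x y : ℝ} (hx : x ∈ Ioo (0 : ℝ) 1) (hy : y ∈ Ioo (0 : ℝ) 1) : f x = f y :=
  isOpen_Ioo.is_const_of_deriv_eq_zero isPreconnected_Ioo
    (fun z hz => (hf z hz).differentiableAt.differentiableWithinAt)
    (fun z hz => (hf z hz).deriv) hx hy

theorem zero_of_deriv {f : ℝ → ℝ} (hf : ∀ z ∈ Ioo (0 : ℝ) 1, HasDerivAt f 0 z)
    (h0 : Tendsto f (𝓝[>] 0) (𝓝 0)) {x : ℝ} (hx : x ∈ Ioo (0 : ℝ) 1) : f x = 0 := by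
  refine tendsto_nhds_unique (l := 𝓝[>] (0 : ℝ)) (tendsto_const_nhds.congr' ?_) h0
  filter_upwards [Ioo_mem_nhdsGT (zero_lt_one' ℝ)] with y hy
  exact const_of_deriv hf hx hy

/-- The two forms `1 / t` and `1 / (t - 1)`. -/
noncomputable def om (a : Fin 2) (t : ℝ) : ℝ := if a = 0 then t⁻¹ else (t - 1)⁻¹

/-- The word consists of letters `A` only. -/
def AllA (w : Word) : Prop := w = List.replicate w.length 0

instance : DecidablePred AllA := fun w => inferInstanceAs (Decidable (w = List.replicate w.length 0))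

theorem allA_cons (a : Fin 2) (v : Word) : AllA (a :: v) ↔ a = 0 ∧ AllA v := by
  simp [AllA, List.replicate_succ]

/-- The coefficients of `G₀`. -/
noncomputable def g : Word → ℝ → ℝ
  | [] => fun _ => 1
  | a :: v => fun z => if AllA (a :: v) then Real.log z ^ (v.length + 1) / (v.length + 1).factorial
      else ∫ t in (0 : ℝ)..z, om a t * g v t

theorem g_allA {w : Word} (h : AllA w) (z : ℝ) :
    g w z = Real.log z ^ w.length / w.length.factorial := by
  cases w with
  | nil => simp [g]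
  | cons a v => simp [g, h]

theorem om_cont (a : Fin 2) : ContinuousOn (om a) (Ioo 0 1) := by
  unfold om
  split_ifs
  · exact continuousOn_inv₀.mono fun t ht => ht.1.ne'
  · exact (continuousOn_id.sub continuousOn_const).inv₀ fun t ht => (sub_neg.2 ht.2).ne

theorem g_spec (w : Word) : ContinuousOn (g w) (Ioo 0 1) ∧ (¬ AllA w → Small (g w)) ∧
    ∀ a v, w = a :: v → ∀ z ∈ Ioo (0 : ℝ) 1, HasDerivAt (g w) (om a z * g v z) z := by
  induction w with
  | nil => exact ⟨continuousOn_const, fun h => absurd rfl h, fun a v h => by cases h⟩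
  | cons a v ih =>
    obtain ⟨hc, hs, -⟩ := ih
    have key : (¬ AllA (a :: v) → Small (g (a :: v))) ∧
        ∀ z ∈ Ioo (0 : ℝ) 1, HasDerivAt (g (a :: v)) (om a z * g v z) z := by
      by_cases h : AllA (a :: v)
      · refine ⟨fun h' => absurd h h', fun z hz => ?_⟩
        obtain ⟨rfl, hv⟩ := (allA_cons a v).1 h
        have e : g (0 :: v) = fun z => Real.log z ^ (v.length + 1) / (v.length + 1).factorial := by
          funext z
          simp [g, h]
        rw [e, g_allA hv]
        refine (((Real.hasDerivAt_log hz.1.ne').fun_pow (v.length + 1)).div_const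
          ((v.length + 1).factorial : ℝ)).congr_deriv ?_
        have : (v.length.factorial : ℝ) ≠ 0 := by positivity
        simp only [om, if_true, Nat.factorial_succ, Nat.add_sub_cancel]
        push_cast
        field_simp
      · have e : g (a :: v) = fun z => ∫ t in (0 : ℝ)..z, om a t * g v t := by
          funext z
          simp [g, h]
        have hb : (fun t => om a t * g v t) =O[𝓝[>] 0] fun t : ℝ => t ^ (-(1 / 2) : ℝ) := by
          have hinv : om a =O[𝓝[>] 0] fun t : ℝ => t ^ (if a = 0 then (-1 : ℝ) else 0) := by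
            unfold om
            split_ifs
            · simp only [Real.rpow_neg_one]
              exact isBigO_refl _ _
            · simp only [Real.rpow_zero]
              have : Tendsto (fun t : ℝ => (t - 1)⁻¹) (𝓝[>] 0) (𝓝 (0 - 1)⁻¹) :=
                (((continuous_id.sub continuous_const).tendsto 0).inv₀ (by simp)).mono_left
                  nhdsWithin_le_nhds
              exact this.isBigO_one ℝ
          by_cases hv : AllA v
          · have ha : a ≠ 0 := fun ha => h ((allA_cons a v).2 ⟨ha, hv⟩)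
            have h2 : g v =O[𝓝[>] 0] fun t : ℝ => t ^ (-(1 / 2) : ℝ) := by
              have : g v = fun z => (v.length.factorial : ℝ)⁻¹ * Real.log z ^ v.length := by
                funext z
                rw [g_allA hv, div_eq_inv_mul]
              rw [this]
              exact (log_pow_isBigO _ (by norm_num)).const_mul_left _
            simpa [ha] using hinv.mul h2
          · refine (hinv.mul (hs hv)).trans (IsBigO.of_bound 1 ?_)
            filter_upwards [Ioo_mem_nhdsGT (zero_lt_one' ℝ)] with t ht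
            rw [← Real.rpow_add ht.1, one_mul, Real.norm_of_nonneg (Real.rpow_nonneg ht.1.le _),
              Real.norm_of_nonneg (Real.rpow_nonneg ht.1.le _)]
            refine Real.rpow_le_rpow_of_exponent_ge ht.1 ht.2.le ?_
            split_ifs <;> norm_num
        obtain ⟨p1, p2⟩ := prim ((om_cont a).mul hc) hb
        rw [e]
        exact ⟨fun _ => p2, p1⟩
    refine ⟨fun z hz => (key.2 z hz).continuousAt.continuousWithinAt, key.1, ?_⟩
    rintro b u h
    cases h
    exact key.2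

theorem g_small {w : Word} (h : ¬ AllA w) : Small (g w) := (g_spec w).2.1 h

theorem g_deriv (a : Fin 2) (v : Word) {z : ℝ} (hz : z ∈ Ioo (0 : ℝ) 1) :
    HasDerivAt (g (a :: v)) (om a z * g v z) z := (g_spec _).2.2 a v rfl z hz

end Pool.Agent.MP_807c24_nt.KZ20
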