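import Pool.Agent.MP_807c24_nt.KZ20.Defs

/-! Low degree algebra of series. -/

namespace Pool.Agent.MP_807c24_nt.KZ20

open Finset

variable {k : Type} [CommRing k]

theorem mul_nil (x y : Ser k) : mul x y [] = x [] * y [] := by
  simp [mul]

theorem mul_cons (x y : Ser k) (a : Fin 2) (w : Word) :
    mul x y (a :: w) = x [] * y (a :: w) + mul (fun u => x (a :: u)) y w := by
  simp only [mul, List.length_cons]
  rw [Finset.sum_range_succ']
  simp [add_comm]

theorem mul_one' (x y : Ser k) (a : Fin 2) :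
    mul x y [a] = x [] * y [a] + x [a] * y [] := by
  simp [mul_cons, mul_nil]

theorem mul_two' (x y : Ser k) (a b : Fin 2) :
    mul x y [a, b] = x [] * y [a, b] + x [a] * y [b] + x [a, b] * y [] := by
  simp [mul_cons, mul_nil]; ring

theorem mul_three' (x y : Ser k) (a b c : Fin 2) :
    mul x y [a, b, c] =
      x [] * y [a, b, c] + x [a] * y [b, c] + x [a, b] * y [c] + x [a, b, c] * y [] := by
  simp [mul_cons, mul_nil]; ring

variable [Algebra ℚ k]

theorem log_nil (Φ : Ser k) : log Φ [] = 0 := by simp [log]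

theorem log_one (Φ : Ser k) (h : Φ [] = 1) (a : Fin 2) : log Φ [a] = Φ [a] := by
  simp [log, pow, mul_one', word, h]

theorem log_two (Φ : Ser k) (h : Φ [] = 1) (h1 : ∀ a, Φ [a] = 0) (a b : Fin 2) :
    log Φ [a, b] = Φ [a, b] := by
  have : Icc 1 2 = ({1, 2} : Finset ℕ) := by decide
  simp [log, this, pow, mul_one', mul_two', mul_nil, word, h, h1]

theorem log_three (Φ : Ser k) (h : Φ [] = 1) (h1 : ∀ a, Φ [a] = 0) (a b c : Fin 2) :
    log Φ [a, b, c] = Φ [a, b, c] := by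
  have : Icc 1 3 = ({1, 2, 3} : Finset ℕ) := by decide
  simp [log, this, pow, mul_one', mul_two', mul_three', mul_nil, word, h, h1]

/-- The linear conditions satisfied by Lie series in degree at most three. -/
def LieLow (x : Ser k) : Prop :=
  x [] = 0 ∧ x [0, 0] = 0 ∧ x [1, 1] = 0 ∧ x [1, 0] = - x [0, 1] ∧
    x [0, 0, 0] = 0 ∧ x [1, 1, 1] = 0 ∧ x [1, 0, 0] = x [0, 0, 1] ∧ x [0, 1, 0] = -2 * x [0, 0, 1] ∧
    x [1, 1, 0] = x [0, 1, 1] ∧ x [1, 0, 1] = -2 * x [0, 1, 1]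

omit [Algebra ℚ k] in
theorem lieLow_bracket {x : Ser k} (h : IsBracket x) : LieLow x := by
  induction h with
  | letter a => simp [LieLow, word]
  | bracket _ _ hx hy =>
    obtain ⟨a0, a1, a2, a3, -⟩ := hx
    obtain ⟨b0, b1, b2, b3, -⟩ := hy
    simp only [LieLow, Pi.sub_apply, mul_nil, mul_two', mul_three', a0, a1, a2, a3, b0, b1, b2, b3]
    refine ⟨?_, ?_, ?_, ?_, ?_, ?_, ?_, ?_, ?_, ?_⟩ <;> ring

omit [Algebra ℚ k] in
theorem lieLow_span {x : Ser k} (h : x ∈ Submodule.span k {x : Ser k | IsBracket x}) :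
    LieLow x := by
  induction h using Submodule.span_induction with
  | mem x hx => exact lieLow_bracket hx
  | zero => simp [LieLow]
  | add x y _ _ hx hy =>
    obtain ⟨a0, a1, a2, a3, a4, a5, a6, a7, a8, a9⟩ := hx
    obtain ⟨b0, b1, b2, b3, b4, b5, b6, b7, b8, b9⟩ := hy
    simp only [LieLow, Pi.add_apply, a0, a1, a2, a3, a4, a5, a6, a7, a8, a9,
      b0, b1, b2, b3, b4, b5, b6, b7, b8, b9]
    refine ⟨?_, ?_, ?_, ?_, ?_, ?_, ?_, ?_, ?_, ?_⟩ <;> first | trivial | ring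
  | smul c x _ hx =>
    obtain ⟨a0, a1, a2, a3, a4, a5, a6, a7, a8, a9⟩ := hx
    simp only [LieLow, Pi.smul_apply, smul_eq_mul, a0, a1, a2, a3, a4, a5, a6, a7, a8, a9]
    refine ⟨?_, ?_, ?_, ?_, ?_, ?_, ?_, ?_, ?_, ?_⟩ <;> first | trivial | ring

theorem lieLow_log {Φ : Ser k} (h : IsExpLie Φ) : LieLow (log Φ) := by
  obtain ⟨-, a1, a2, a3, -⟩ := lieLow_span (h.2 2)
  obtain ⟨-, -, -, -, a4, a5, a6, a7, a8, a9⟩ := lieLow_span (h.2 3)
  simp only [List.length_cons, List.length_nil, if_true] at a1 a2 a3 a4 a5 a6 a7 a8 a9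
  exact ⟨log_nil Φ, a1, a2, a3, a4, a5, a6, a7, a8, a9⟩

section ev
variable {R : Type} [Ring R] [Algebra k R]

/-- Sum over the words of length `n`. -/
def wsum (n : ℕ) (F : Word → R) : R := ∑ f : Fin n → Fin 2, F (List.ofFn f)

theorem wsum_zero (F : Word → R) : wsum 0 F = F [] := by simp [wsum]

theorem wsum_succ (n : ℕ) (F : Word → R) :
    wsum (n + 1) F = wsum n (fun w => F (0 :: w)) + wsum n (fun w => F (1 :: w)) := by
  unfold wsum
  rw [← (Fin.consEquiv fun _ : Fin (n + 1) => Fin 2).sum_comp, Fintype.sum_prod_type,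
    Fin.sum_univ_two]
  simp [Fin.consEquiv, List.ofFn_succ]

omit [Algebra ℚ k] in
theorem ev_eq (N : ℕ) (Φ : Ser k) (x y : R) :
    ev N Φ x y = ∑ n ∈ range (N + 1), wsum n (fun w : Word => Φ w • (w.map ![x, y]).prod) := by
  simp [ev, wsum, List.map_ofFn, Function.comp_def]

omit [Algebra ℚ k] in
theorem ev_one (Φ : Ser k) (x y : R) :
    ev 1 Φ x y = Φ [] • (1 : R) + (Φ [0] • x + Φ [1] • y) := by
  rw [ev_eq]
  simp only [Finset.sum_range_succ, Finset.sum_range_zero, wsum_succ, wsum_zero]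
  simp

omit [Algebra ℚ k] in
theorem ev_two (Φ : Ser k) (x y : R) :
    ev 2 Φ x y = Φ [] • (1 : R) + (Φ [0] • x + Φ [1] • y) +
      (Φ [0, 0] • (x * x) + Φ [0, 1] • (x * y) + (Φ [1, 0] • (y * x) + Φ [1, 1] • (y * y))) := by
  rw [ev_eq]
  simp only [Finset.sum_range_succ, Finset.sum_range_zero, wsum_succ, wsum_zero]
  simp

omit [Algebra ℚ k] in
theorem ev_three (Φ : Ser k) (x y : R) :
    ev 3 Φ x y = Φ [] • (1 : R) + (Φ [0] • x + Φ [1] • y) +
      (Φ [0, 0] • (x * x) + Φ [0, 1] • (x * y) + (Φ [1, 0] • (y * x) + Φ [1, 1] • (y * y))) +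
      (Φ [0, 0, 0] • (x * (x * x)) + Φ [0, 0, 1] • (x * (x * y)) +
        (Φ [0, 1, 0] • (x * (y * x)) + Φ [0, 1, 1] • (x * (y * y))) +
      (Φ [1, 0, 0] • (y * (x * x)) + Φ [1, 0, 1] • (y * (x * y)) +
        (Φ [1, 1, 0] • (y * (y * x)) + Φ [1, 1, 1] • (y * (y * y))))) := by
  rw [ev_eq]
  simp only [Finset.sum_range_succ, Finset.sum_range_zero, wsum_succ, wsum_zero]
  simp

omit [Algebra ℚ k] in
theorem map_ev {S : Type} [Ring S] [Algebra k S] (g : R →ₐ[k] S) (N : ℕ) (Φ : Ser k) (x y : R) :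
    g (ev N Φ x y) = ev N Φ (g x) (g y) := by
  simp only [ev, map_sum, map_smul, map_list_prod, List.map_ofFn]
  refine Finset.sum_congr rfl fun n _ => Finset.sum_congr rfl fun f _ => ?_
  congr 3
  funext i
  simp only [Function.comp_apply]
  generalize f i = a
  fin_cases a <;> simp

theorem map_ex {S : Type} [Ring S] [Algebra k S] (g : R →ₐ[k] S) (N : ℕ) (c : k) (x : R) :
    g (ex N c x) = ex N c (g x) := by
  simp only [ex, map_sum, map_smul, map_pow]

end ev

end Pool.Agent.MP_807c24_nt.KZ20
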