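import Pool.Agent.MP_807c24_nt.KZ20.Prim

/-! Existence of the KZ associator and the connection formula. -/

namespace Pool.Agent.MP_807c24_nt.KZ20

open Set Filter Topology Finset

theorem mul_add_left (x x' y : Ser ℝ) (w : Word) : mul (x + x') y w = mul x y w + mul x' y w := by
  simp [mul, add_mul, Finset.sum_add_distrib]

theorem mul_smul_left (c : ℝ) (x y : Ser ℝ) (w : Word) : mul (c • x) y w = c * mul x y w := by
  simp [mul, mul_assoc, Finset.mul_sum]

theorem mul_zero_left (y : Ser ℝ) (w : Word) : mul 0 y w = 0 := by simp [mul]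

theorem mul_unit_left (y : Ser ℝ) (w : Word) : mul (word []) y w = y w := by
  cases w with
  | nil => simp [mul_nil, word]
  | cons a v =>
    have : (fun u => (word [] : Ser ℝ) (a :: u)) = 0 := by
      funext u
      simp [word]
    rw [mul_cons, this, mul_zero_left]
    simp [word]

theorem solves_iff (G : ℝ → Ser ℝ) : SolvesKZ G ↔ ∀ z ∈ Set.Ioo (0 : ℝ) 1,
    HasDerivAt (fun s => G s []) 0 z ∧
      ∀ a v, HasDerivAt (fun s => G s (a :: v)) (om a z * G z v) z := by
  have e0 : ∀ z : ℝ, mul (z⁻¹ • word [0] + (z - 1)⁻¹ • word [1]) (G z) [] = 0 := by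
    intro z
    simp [mul_nil, word]
  have e1 : ∀ (z : ℝ) a v, mul (z⁻¹ • word [0] + (z - 1)⁻¹ • word [1]) (G z) (a :: v) =
      om a z * G z v := by
    intro z a v
    have : (fun u => (z⁻¹ • word [0] + (z - 1)⁻¹ • word [1] : Ser ℝ) (a :: u)) =
        om a z • word [] := by
      funext u
      fin_cases a <;> simp [word, om]
    rw [mul_cons, this, mul_smul_left, mul_unit_left]
    simp [word]
  constructor
  · intro h z hz
    exact ⟨e0 z ▸ h z hz [], fun a v => e1 z a v ▸ h z hz (a :: v)⟩
  · intro h z hz w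
    cases w with
    | nil => rw [e0]; exact (h z hz).1
    | cons a v => rw [e1]; exact (h z hz).2 a v

theorem solves_g : SolvesKZ fun z w => g w z :=
  (solves_iff _).2 fun z hz => ⟨hasDerivAt_const z 1, fun a v => g_deriv a v hz⟩

theorem allA_take_drop (w : Word) (i : ℕ) : AllA w ↔ AllA (w.take i) ∧ AllA (w.drop i) := by
  simp only [AllA, List.eq_replicate_length]
  constructor
  · exact fun h => ⟨fun b hb => h b (List.mem_of_mem_take hb), fun b hb => h b (List.mem_of_mem_drop hb)⟩
  · intro h b hb
    rw [← List.take_append_drop i w, List.mem_append] at hb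
    exact hb.elim (h.1 b) (h.2 b)

theorem expLetter_zero (c : ℝ) (w : Word) :
    expLetter 0 c w = if AllA w then c ^ w.length / w.length.factorial else 0 := by
  simp only [expLetter, AllA]
  congr

theorem exp_mul_exp (c : ℝ) (w : Word) : mul (expLetter 0 c) (expLetter 0 (-c)) w = word [] w := by
  by_cases h : AllA w
  · have e : ∀ i ∈ range (w.length + 1), expLetter 0 c (w.take i) * expLetter 0 (-c) (w.drop i) =
        (c ^ i * (-c) ^ (w.length - i) * (w.length.choose i)) / w.length.factorial := by
      intro i hi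
      have hi' : i ≤ w.length := Nat.lt_succ_iff.1 (mem_range.1 hi)
      obtain ⟨h1, h2⟩ := (allA_take_drop w i).1 h
      rw [expLetter_zero, expLetter_zero, if_pos h1, if_pos h2, List.length_take, List.length_drop,
        min_eq_left hi', ← Nat.choose_mul_factorial_mul_factorial hi']
      have : (w.length.choose i : ℝ) ≠ 0 := by
        have := Nat.choose_pos hi'
        positivity
      push_cast
      field_simp
    rw [mul, Finset.sum_congr rfl e, ← Finset.sum_div, ← add_pow]
    cases w with
    | nil => simp [word]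
    | cons a v => simp [word]
  · have hw : w ≠ [] := fun hw => h (hw ▸ rfl)
    simp only [word, if_neg hw, mul]
    refine Finset.sum_eq_zero fun i _ => ?_
    rw [allA_take_drop w i, not_and_or] at h
    rcases h with h | h <;> simp [expLetter_zero, h]

/-- The normalisation at `0`. -/
def Norm0 (G : ℝ → Ser ℝ) : Prop :=
  ∀ w, Tendsto (fun z => mul (G z) (expLetter 0 (-Real.log z)) w) (𝓝[>] 0) (𝓝 (word [] w))

theorem norm0_g : Norm0 fun z w => g w z := by
  intro w
  have e : ∀ z, (fun w => g w z) =
      expLetter 0 (Real.log z) + fun w => if AllA w then 0 else g w z := by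
    intro z
    funext w
    by_cases h : AllA w <;> simp [expLetter_zero, h, g_allA]
  simp only [e, mul_add_left, exp_mul_exp]
  have : Tendsto (fun z => mul (fun w => if AllA w then 0 else g w z) (expLetter 0 (-Real.log z)) w)
      (𝓝[>] 0) (𝓝 (∑ _i ∈ range (w.length + 1), (0 : ℝ))) := by
    refine tendsto_finsetSum _ fun i _ => ?_
    by_cases h1 : AllA (w.take i)
    · simp [h1]
    · by_cases h2 : AllA (w.drop i)
      · have := ((g_small h1).mul_log_pow (w.drop i).length).mul_const
          ((-1) ^ (w.drop i).length / ((w.drop i).length.factorial : ℝ))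
        rw [zero_mul] at this
        refine this.congr fun z => ?_
        beta_reduce
        rw [expLetter_zero, if_neg h1, if_pos h2, neg_pow (Real.log z)]
        ring
      · simp [expLetter_zero, h2]
  simpa using this.const_add (word [] w)

theorem unique0 {G : ℝ → Ser ℝ} (h1 : SolvesKZ G) (h2 : Norm0 G) (w : Word) :
    ∀ z ∈ Set.Ioo (0 : ℝ) 1, G z w = g w z := by
  induction hn : w.length using Nat.strong_induction_on generalizing w with
  | _ n ih =>
    have hd : ∀ z ∈ Set.Ioo (0 : ℝ) 1, HasDerivAt (fun s => G s w - g w s) 0 z := by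
      intro z hz
      cases w with
      | nil =>
        exact (((solves_iff G).1 h1 z hz).1.sub
          (((solves_iff _).1 solves_g z hz).1)).congr_deriv (sub_self _)
      | cons a v =>
        have := (((solves_iff G).1 h1 z hz).2 a v).sub (g_deriv a v hz)
        rwa [ih v.length (by simp [← hn]) v rfl z hz, sub_self] at this
    have ht := (h2 w).sub (norm0_g w)
    rw [sub_self] at ht
    intro z hz
    refine sub_eq_zero.1 (zero_of_deriv hd (ht.congr' ?_) hz)
    filter_upwards [Ioo_mem_nhdsGT (zero_lt_one' ℝ)] with y hy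
    simp only [mul, Finset.sum_range_succ, List.take_length, List.drop_length]
    have : ∀ i ∈ range w.length, G y (w.take i) * expLetter 0 (-Real.log y) (w.drop i) =
        g (w.take i) y * expLetter 0 (-Real.log y) (w.drop i) := by
      intro i hi
      rw [ih (w.take i).length (by simp only [List.length_take, ← hn]; have := mem_range.1 hi; omega)
        _ rfl y hy]
    rw [Finset.sum_congr rfl this]
    simp [expLetter]

/-- Exchange of the letters and of `z`, `1 - z`. -/
def flip (G : ℝ → Ser ℝ) : ℝ → Ser ℝ := fun z w => G (1 - z) (w.map Fin.rev)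

theorem solves_flip {G : ℝ → Ser ℝ} (h : SolvesKZ G) : SolvesKZ (flip G) := by
  rw [solves_iff] at h ⊢
  intro z hz
  have hz' : 1 - z ∈ Set.Ioo (0 : ℝ) 1 := ⟨by linarith [hz.2], by linarith [hz.1]⟩
  have hd : HasDerivAt (fun s : ℝ => 1 - s) (-1) z := (hasDerivAt_id z).const_sub 1
  refine ⟨?_, fun a v => ?_⟩
  · exact ((h _ hz').1.comp z hd).congr_deriv (zero_mul _)
  · refine (((h _ hz').2 a.rev (v.map Fin.rev)).comp z hd).congr_deriv ?_
    have : om a.rev (1 - z) = - om a z := by
      fin_cases a
      · simp [om, Fin.rev, inv_neg]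
      · simp only [om]
        rw [if_pos (by decide), if_neg (by decide), ← inv_neg, neg_sub]
    rw [this, flip]
    ring

theorem mul_map (x y : Ser ℝ) (w : Word) :
    mul (fun u => x (u.map Fin.rev)) (fun u => y (u.map Fin.rev)) w = mul x y (w.map Fin.rev) := by
  simp [mul, List.map_take, List.map_drop]

theorem expLetter_map (a : Fin 2) (c : ℝ) (w : Word) :
    expLetter a c (w.map Fin.rev) = expLetter a.rev c w := by
  have : w.map Fin.rev = List.replicate w.length a ↔ w = List.replicate w.length a.rev := by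
    rw [← List.length_map Fin.rev, List.eq_replicate_length, List.length_map,
      List.eq_replicate_length]
    simp only [List.mem_map, forall_exists_index, and_imp, forall_apply_eq_imp_iff₂]
    simp only [Fin.rev_eq_iff]
  simp only [expLetter, List.length_map, this]

theorem word_nil_map (w : Word) : (word [] : Ser ℝ) (w.map Fin.rev) = word [] w := by
  simp [word]

theorem tendsto_one_sub : Tendsto (fun z : ℝ => 1 - z) (𝓝[<] 1) (𝓝[>] 0) := by
  refine tendsto_nhdsWithin_iff.2 ⟨?_, ?_⟩
  · have : Tendsto (fun z : ℝ => 1 - z) (𝓝 1) (𝓝 (1 - 1)) :=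
      (continuous_const.sub continuous_id).tendsto 1
    rw [sub_self] at this
    exact this.mono_left nhdsWithin_le_nhds
  · filter_upwards [self_mem_nhdsWithin] with z hz
    exact sub_pos.2 (Set.mem_Iio.1 hz)

theorem tendsto_one_sub' : Tendsto (fun z : ℝ => 1 - z) (𝓝[>] 0) (𝓝[<] 1) := by
  refine tendsto_nhdsWithin_iff.2 ⟨?_, ?_⟩
  · have : Tendsto (fun z : ℝ => 1 - z) (𝓝 0) (𝓝 (1 - 0)) :=
      (continuous_const.sub continuous_id).tendsto 0
    rw [sub_zero] at this
    exact this.mono_left nhdsWithin_le_nhds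
  · filter_upwards [self_mem_nhdsWithin] with z hz
    exact sub_lt_self (1 : ℝ) (Set.mem_Ioi.1 hz)

/-- The normalisation at `1`. -/
def Norm1 (G : ℝ → Ser ℝ) : Prop :=
  ∀ w, Tendsto (fun z => mul (G z) (expLetter 1 (-Real.log (1 - z))) w) (𝓝[<] 1) (𝓝 (word [] w))

theorem norm1_flip {G : ℝ → Ser ℝ} (h : Norm0 G) : Norm1 (flip G) := by
  intro w
  have := (h (w.map Fin.rev)).comp tendsto_one_sub
  rw [word_nil_map] at this
  refine this.congr fun z => ?_
  simp only [Function.comp_apply, ← mul_map, expLetter_map]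
  rfl

theorem norm0_flip {G : ℝ → Ser ℝ} (h : Norm1 G) : Norm0 (flip G) := by
  intro w
  have := (h (w.map Fin.rev)).comp tendsto_one_sub'
  rw [word_nil_map] at this
  refine this.congr fun z => ?_
  simp only [Function.comp_apply, ← mul_map, expLetter_map, sub_sub_cancel]
  rfl

theorem solves_mul {G : ℝ → Ser ℝ} (h : SolvesKZ G) (Φ : Ser ℝ) :
    SolvesKZ fun z => mul (G z) Φ := by
  rw [solves_iff] at h ⊢
  intro z hz
  refine ⟨?_, fun a v => ?_⟩
  · simpa [mul_nil] using (h z hz).1.mul_const (Φ [])
  · simp only [mul_cons]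
    have h1 := (h z hz).1.mul_const (Φ (a :: v))
    have h2 := HasDerivAt.fun_sum (u := range (v.length + 1))
      fun i _ => ((h z hz).2 a (v.take i)).mul_const (Φ (v.drop i))
    refine (h1.add h2).congr_deriv ?_
    simp [mul, Finset.mul_sum, mul_assoc]

theorem eq_of_solves {G H : ℝ → Ser ℝ} (hG : SolvesKZ G) (hH : SolvesKZ H) {x : ℝ}
    (hx : x ∈ Set.Ioo (0 : ℝ) 1) (h : G x = H x) (w : Word) :
    ∀ z ∈ Set.Ioo (0 : ℝ) 1, G z w = H z w := by
  rw [solves_iff] at hG hH
  have key : ∀ w, (∀ z ∈ Set.Ioo (0 : ℝ) 1, HasDerivAt (fun s => G s w - H s w) 0 z) →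
      ∀ z ∈ Set.Ioo (0 : ℝ) 1, G z w = H z w := by
    intro w hd z hz
    have := const_of_deriv hd hz hx
    rw [h, sub_self] at this
    exact sub_eq_zero.1 this
  induction w with
  | nil => exact key _ fun z hz => ((hG z hz).1.sub (hH z hz).1).congr_deriv (sub_self _)
  | cons a v ih =>
    refine key _ fun z hz => ?_
    have := ((hG z hz).2 a v).sub ((hH z hz).2 a v)
    rwa [ih z hz, sub_self] at this

/-- Left division of series. -/
noncomputable def ldiv (x y : Ser ℝ) (w : Word) : ℝ :=
  y w - ∑ i : Fin w.length, x (w.take (i + 1)) * ldiv x y (w.drop (i + 1))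
termination_by w.length
decreasing_by
  have := i.2
  simp only [List.length_drop]
  omega

theorem mul_ldiv {x : Ser ℝ} (hx : x [] = 1) (y : Ser ℝ) : mul x (ldiv x y) = y := by
  funext w
  rw [mul, Finset.sum_range_succ', List.take_zero, List.drop_zero, hx, one_mul, ldiv,
    Finset.sum_range fun i => x (w.take (i + 1)) * ldiv x y (w.drop (i + 1))]
  ring

theorem exists_isKZ : ∃ Φ, IsKZ Φ := by
  have hx : (1 / 2 : ℝ) ∈ Set.Ioo (0 : ℝ) 1 := by norm_num
  refine ⟨ldiv (flip (fun z w => g w z) (1 / 2)) fun w => g w (1 / 2), fun z w => g w z,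
    flip fun z w => g w z, solves_g, solves_flip solves_g, norm0_g, norm1_flip norm0_g,
    fun z hz => funext fun w => ?_⟩
  exact eq_of_solves (solves_mul (solves_flip solves_g) _) solves_g hx (mul_ldiv rfl _) w z hz

/-- The connection formula. -/
theorem connection {Φ : Ser ℝ} (h : IsKZ Φ) {z : ℝ} (hz : z ∈ Set.Ioo (0 : ℝ) 1) (w : Word) :
    g w z = mul (fun u => g (u.map Fin.rev) (1 - z)) Φ w := by
  obtain ⟨G₀, G₁, s0, s1, n0, n1, e⟩ := h
  have hz' : 1 - z ∈ Set.Ioo (0 : ℝ) 1 := ⟨by linarith [hz.2], by linarith [hz.1]⟩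
  rw [← unique0 s0 n0 w z hz, ← e z hz]
  congr 1
  funext u
  rw [← unique0 (solves_flip s1) (norm0_flip n1) _ _ hz']
  simp [flip, Function.comp_def]

end Pool.Agent.MP_807c24_nt.KZ20
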