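import Pool.Agent.MP_807c24_nt.KZ20.Sol
import Pool.Agent.MP_807c24_nt.KZ20.Assoc

/-! The coefficients of the KZ associator in degree at most three. -/

namespace Pool.Agent.MP_807c24_nt.KZ20

open Set Filter Topology

theorem not_allA_one (v : Word) : ¬ AllA (1 :: v) := by simp [allA_cons]

theorem not_allA_cons (a : Fin 2) {v : Word} (h : ¬ AllA v) : ¬ AllA (a :: v) := by
  simp [allA_cons, h]

theorem eq_of_deriv {f h f' : ℝ → ℝ} (hf : ∀ z ∈ Ioo (0 : ℝ) 1, HasDerivAt f (f' z) z)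
    (hh : ∀ z ∈ Ioo (0 : ℝ) 1, HasDerivAt h (f' z) z) (f0 : Tendsto f (𝓝[>] 0) (𝓝 0))
    (h0 : Tendsto h (𝓝[>] 0) (𝓝 0)) {x : ℝ} (hx : x ∈ Ioo (0 : ℝ) 1) : f x = h x :=
  sub_eq_zero.1 (zero_of_deriv (f := fun z => f z - h z)
    (fun z hz => ((hf z hz).sub (hh z hz)).congr_deriv (sub_self _)) (by simpa using f0.sub h0) hx)

theorem g_A (z : ℝ) : g [0] z = Real.log z := by
  rw [g_allA (by decide)]; simp

theorem g_AA (z : ℝ) : g [0, 0] z = Real.log z ^ 2 / 2 := by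
  rw [g_allA (by decide)]; simp

theorem g_nil (z : ℝ) : g [] z = 1 := rfl

theorem gz (w : Word) (h : ¬ AllA w) : Tendsto (g w) (𝓝[>] 0) (𝓝 0) :=
  (g_small h).tendsto

theorem sh1 {z : ℝ} (hz : z ∈ Ioo (0 : ℝ) 1) : g [1] z * g [0] z = g [0, 1] z + g [1, 0] z := by
  refine eq_of_deriv (f := fun z => g [1] z * g [0] z) (h := fun z => g [0, 1] z + g [1, 0] z)
    (fun z hz => (g_deriv 1 [] hz).mul (g_deriv 0 [] hz))
    (fun z hz => ((g_deriv 0 [1] hz).add (g_deriv 1 [0] hz)).congr_deriv ?_) ?_ ?_ hz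
  · simp only [g_nil]; ring
  · simpa [g_A] using (g_small (w := [1]) (by decide)).mul_log_pow 1
  · simpa using (gz [0, 1] (by decide)).add (gz [1, 0] (by decide))

theorem sh2 {z : ℝ} (hz : z ∈ Ioo (0 : ℝ) 1) :
    g [0, 1] z * g [0] z = 2 * g [0, 0, 1] z + g [0, 1, 0] z := by
  refine eq_of_deriv (f := fun z => g [0, 1] z * g [0] z)
    (h := fun z => 2 * g [0, 0, 1] z + g [0, 1, 0] z)
    (f' := fun z => om 0 z * (2 * g [0, 1] z + g [1, 0] z))
    (fun z hz => ((g_deriv 0 [1] hz).mul (g_deriv 0 [] hz)).congr_deriv ?_)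
    (fun z hz => (((g_deriv 0 [0, 1] hz).const_mul 2).add (g_deriv 0 [1, 0] hz)).congr_deriv ?_)
    ?_ ?_ hz
  · rw [mul_assoc, sh1 hz, g_nil]; ring
  · ring
  · simpa [g_A] using (g_small (w := [0, 1]) (by decide)).mul_log_pow 1
  · simpa using ((gz [0, 0, 1] (by decide)).const_mul 2).add (gz [0, 1, 0] (by decide))

theorem sh3 {z : ℝ} (hz : z ∈ Ioo (0 : ℝ) 1) :
    g [1] z * g [0, 0] z = g [1, 0, 0] z + g [0, 1, 0] z + g [0, 0, 1] z := by
  refine eq_of_deriv (f := fun z => g [1] z * g [0, 0] z)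
    (h := fun z => g [1, 0, 0] z + g [0, 1, 0] z + g [0, 0, 1] z)
    (f' := fun z => om 1 z * g [0, 0] z + om 0 z * (g [1] z * g [0] z))
    (fun z hz => ((g_deriv 1 [] hz).mul (g_deriv 0 [0] hz)).congr_deriv ?_)
    (fun z hz => (((g_deriv 1 [0, 0] hz).add (g_deriv 0 [1, 0] hz)).add
      (g_deriv 0 [0, 1] hz)).congr_deriv ?_) ?_ ?_ hz
  · rw [g_nil]; ring
  · rw [sh1 hz]; ring
  · have := ((g_small (w := [1]) (by decide)).mul_log_pow 2).div_const 2
    simpa [g_AA, mul_div_assoc] using this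
  · simpa using ((gz [1, 0, 0] (by decide)).add (gz [0, 1, 0] (by decide))).add (gz [0, 0, 1] (by decide))

/-- The polylogarithm series. -/
noncomputable def Li (k : ℕ) (z : ℝ) : ℝ := ∑' n : ℕ, z ^ (n + 1) / ((n : ℝ) + 1) ^ k

theorem li_deriv (k : ℕ) {z : ℝ} (hz : z ∈ Ioo (0 : ℝ) 1) :
    HasDerivAt (Li (k + 1)) (z⁻¹ * Li k z) z := by
  have hr : (1 + z) / 2 < 1 := by linarith [hz.2]
  have hr0 : 0 ≤ (1 + z) / 2 := by linarith [hz.1]
  have bd : ∀ (j n : ℕ) (y : ℝ), y ∈ Ioo 0 ((1 + z) / 2) →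
      ‖y ^ n / ((n : ℝ) + 1) ^ j‖ ≤ ((1 + z) / 2) ^ n := by
    intro j n y hy
    have := hy.1
    rw [Real.norm_of_nonneg (by positivity)]
    exact (div_le_self (by positivity) (one_le_pow₀ (by simp))).trans
      (pow_le_pow_left₀ hy.1.le hy.2.le n)
  have hz' : z ∈ Ioo 0 ((1 + z) / 2) := ⟨hz.1, by linarith [hz.2]⟩
  have h := hasDerivAt_tsum_of_isPreconnected (summable_geometric_of_lt_one hr0 hr) isOpen_Ioo
    isPreconnected_Ioo (g := fun (n : ℕ) (y : ℝ) => y ^ (n + 1) / ((n : ℝ) + 1) ^ (k + 1))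
    (g' := fun (n : ℕ) (y : ℝ) => y ^ n / ((n : ℝ) + 1) ^ k) (fun n y _ => ?_) (bd k) hz' ?_ hz'
  · refine h.congr_deriv ?_
    rw [Li, ← tsum_mul_left]
    refine tsum_congr fun n => ?_
    have := hz.1.ne'
    field_simp
    ring
  · refine ((hasDerivAt_pow (n + 1) y).div_const _).congr_deriv ?_
    have : (n : ℝ) + 1 ≠ 0 := by positivity
    simp only [Nat.add_sub_cancel]
    push_cast
    field_simp
    ring
  · refine ((summable_geometric_of_lt_one hr0 hr).mul_left z).of_norm_bounded fun n => ?_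
    rw [pow_succ', mul_div_assoc, norm_mul, Real.norm_of_nonneg hz.1.le]
    exact mul_le_mul_of_nonneg_left (bd _ n z hz') hz.1.le

theorem li_cont (k : ℕ) : ContinuousOn (Li (k + 2)) (Icc 0 1) := by
  have hs : Summable fun n : ℕ => 1 / ((n : ℝ) + 1) ^ (k + 2) := by
    have := (summable_nat_add_iff 1).2 (Real.summable_one_div_nat_pow.2 (by omega : 1 < k + 2))
    simpa using this
  refine continuousOn_tsum (fun n => by fun_prop) hs fun n y hy => ?_
  have := hy.1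
  rw [Real.norm_of_nonneg (by positivity)]
  exact div_le_div_of_nonneg_right (pow_le_one₀ hy.1 hy.2) (by positivity)

theorem li_zero (k : ℕ) : Tendsto (fun z => -Li (k + 2) z) (𝓝[>] 0) (𝓝 0) := by
  have h := (li_cont k 0 (by simp)).tendsto
  have e : Li (k + 2) 0 = 0 := by simp [Li]
  rw [e] at h
  have := (h.mono_left (nhdsWithin_le_of_mem (Icc_mem_nhdsGT (zero_lt_one' ℝ)))).neg
  rwa [neg_zero] at this

theorem li_one (k : ℕ) : Tendsto (fun z => -Li (k + 2) z) (𝓝[<] 1) (𝓝 (-Li (k + 2) 1)) :=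
  ((li_cont k 1 (by simp)).tendsto.mono_left
    (nhdsWithin_le_of_mem (Icc_mem_nhdsLT (zero_lt_one' ℝ)))).neg

theorem om_zero (z : ℝ) : om 0 z = z⁻¹ := by simp [om]

theorem g_AAB_of {z : ℝ} (h : ∀ z ∈ Ioo (0 : ℝ) 1, g [0, 1] z = -Li 2 z) (hz : z ∈ Ioo (0 : ℝ) 1) :
    g [0, 0, 1] z = -Li 3 z := by
  refine eq_of_deriv (h := fun z => -Li 3 z) (fun z hz => g_deriv 0 [0, 1] hz)
    (fun z hz => (li_deriv 2 hz).neg.congr_deriv ?_) (gz _ (by decide)) (li_zero 1) hz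
  rw [h z hz, om_zero]; ring

section
variable {Φ : Ser ℝ} (h : IsKZ Φ)
include h

theorem kz_nil : Φ [] = 1 := by
  have := connection h (z := 1 / 2) (by norm_num) []
  simpa [mul_nil, g_nil] using this.symm

theorem lim_A (v : Word) : Tendsto (g (0 :: v)) (𝓝[<] 1) (𝓝 (Φ (0 :: v))) := by
  have : Tendsto (fun z => mul (fun u => g ((0 :: u).map Fin.rev) (1 - z)) Φ v) (𝓝[<] 1)
      (𝓝 (∑ i ∈ Finset.range (v.length + 1), 0 * Φ (v.drop i))) :=
    tendsto_finsetSum _ fun i _ =>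
      ((gz _ (not_allA_one _)).comp tendsto_one_sub).mul_const _
  have h2 := this.const_add (Φ (0 :: v))
  simp only [zero_mul, Finset.sum_const_zero, add_zero] at h2
  refine h2.congr' ?_
  filter_upwards [Ioo_mem_nhdsLT (zero_lt_one' ℝ)] with z hz
  rw [connection h hz, mul_cons]
  simp [g_nil]

theorem dual_B (v : Word) : Φ (1 :: v) + mul (fun u => Φ (0 :: u.map Fin.rev)) Φ v = 0 := by
  have : Tendsto (fun z => mul (fun u => g ((1 :: u).map Fin.rev) (1 - z)) Φ v) (𝓝[>] 0)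
      (𝓝 (mul (fun u => Φ (0 :: u.map Fin.rev)) Φ v)) :=
    tendsto_finsetSum _ fun i _ => ((lim_A h _).comp tendsto_one_sub').mul_const _
  refine tendsto_nhds_unique ((this.const_add (Φ (1 :: v))).congr' ?_) (gz _ (not_allA_one v))
  filter_upwards [Ioo_mem_nhdsGT (zero_lt_one' ℝ)] with z hz
  rw [connection h hz, mul_cons]
  simp [g_nil]

theorem kz_allA (v : Word) (hv : AllA (0 :: v)) : Φ (0 :: v) = 0 := by
  refine tendsto_nhds_unique (lim_A h v) ?_
  have e : g (0 :: v) = fun z => Real.log z ^ (v.length + 1) / (v.length + 1).factorial :=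
    funext fun z => g_allA hv z
  have : Tendsto (fun z => Real.log z ^ (v.length + 1) / ((v.length + 1).factorial : ℝ)) (𝓝 1)
      (𝓝 (Real.log 1 ^ (v.length + 1) / (v.length + 1).factorial)) :=
    ((Real.continuousAt_log one_ne_zero).tendsto.pow _).div_const _
  rw [e]
  simpa using this.mono_left nhdsWithin_le_nhds

theorem kz_one (a : Fin 2) : Φ [a] = 0 := by
  have h0 : Φ [0] = 0 := kz_allA h [] (by decide)
  fin_cases a
  · exact h0
  · simpa [mul_nil, h0] using dual_B h []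

theorem g_B {z : ℝ} (hz : z ∈ Ioo (0 : ℝ) 1) : g [1] z = Real.log (1 - z) := by
  rw [connection h hz, mul_one', kz_one h, kz_nil h, mul_zero, zero_add, mul_one]
  exact g_A _

theorem g_AB {z : ℝ} (hz : z ∈ Ioo (0 : ℝ) 1) : g [0, 1] z = -Li 2 z := by
  refine eq_of_deriv (h := fun z => -Li 2 z) (fun z hz => g_deriv 0 [1] hz)
    (fun z hz => (li_deriv 1 hz).neg.congr_deriv ?_) (gz _ (by decide)) (li_zero 0) hz
  have := (Real.hasSum_pow_div_log_of_abs_lt_one (x := z)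
    (abs_lt.2 ⟨by linarith [hz.1], hz.2⟩)).tsum_eq
  rw [g_B h hz, om_zero, Li]
  simp only [pow_one]
  rw [this]
  ring

theorem kz_AB : Φ [0, 1] = -Li 2 1 := by
  refine tendsto_nhds_unique (lim_A h [1]) ((li_one 0).congr' ?_)
  filter_upwards [Ioo_mem_nhdsLT (zero_lt_one' ℝ)] with z hz
  exact (g_AB h hz).symm

theorem kz_AAB : Φ [0, 0, 1] = -Li 3 1 := by
  refine tendsto_nhds_unique (lim_A h [0, 1]) ((li_one 1).congr' ?_)
  filter_upwards [Ioo_mem_nhdsLT (zero_lt_one' ℝ)] with z hz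
  exact (g_AAB_of (fun z hz => g_AB h hz) hz).symm

theorem kz_ABA : Φ [0, 1, 0] = -2 * Φ [0, 0, 1] := by
  have h1 := (lim_A h [1]).mul (lim_A h [])
  have h2 := ((lim_A h [0, 1]).const_mul 2).add (lim_A h [1, 0])
  have := tendsto_nhds_unique (h1.congr' (by
    filter_upwards [Ioo_mem_nhdsLT (zero_lt_one' ℝ)] with z hz
    exact sh2 hz)) h2
  rw [kz_one h] at this
  linarith

theorem kz_B2 (b : Fin 2) : Φ [1, b] = -Φ [0, b.rev] := by
  have := dual_B h [b]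
  simp only [mul_one', kz_one h, kz_nil h, List.map_nil, List.map_cons] at this
  linarith

theorem kz_B3 (b c : Fin 2) : Φ [1, b, c] = -Φ [0, b.rev, c.rev] := by
  have := dual_B h [b, c]
  simp only [mul_two', kz_one h, kz_nil h, List.map_nil, List.map_cons] at this
  linarith

theorem kz_BAA : Φ [1, 0, 0] = Φ [0, 0, 1] := by
  have h00 : Φ [0, 0] = 0 := kz_allA h [0] (by decide)
  have h1 : Tendsto (g [1, 0, 0]) (𝓝[<] 1) (𝓝 (Φ [1, 0, 0] + 0)) := by
    refine (((gz [0, 1, 1] (by decide)).comp tendsto_one_sub).const_add _).congr' ?_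
    filter_upwards [Ioo_mem_nhdsLT (zero_lt_one' ℝ)] with z hz
    rw [connection h hz [1, 0, 0], mul_three', kz_one h, kz_nil h, h00]
    simp [g_nil, Fin.rev]
  have h2 := (h1.add (lim_A h [1, 0])).add (lim_A h [0, 1])
  have h3 : Tendsto (fun z => g [1, 0, 0] z + g [0, 1, 0] z + g [0, 0, 1] z) (𝓝[<] 1) (𝓝 0) := by
    refine (((g_small (w := [1, 1]) (by decide)).mul_log_pow 1).comp tendsto_one_sub).congr' ?_
    filter_upwards [Ioo_mem_nhdsLT (zero_lt_one' ℝ)] with z hz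
    rw [← sh3 hz, g_B h hz, connection h hz [0, 0], mul_two', kz_one h, kz_nil h, h00]
    simp [Fin.rev, mul_comm]
  have := tendsto_nhds_unique h2 h3
  rw [kz_ABA h] at this
  linarith

theorem kz_low {μ : ℂ} (hμ : μ ^ 2 = -24 * (Li 2 1 : ℝ)) :
    Low μ (-(Li 3 1 : ℝ)) (log fun w => (Φ w : ℂ)) := by
  have h0 : (Φ [] : ℂ) = 1 := by simp [kz_nil h]
  have h1 : ∀ a, (Φ [a] : ℂ) = 0 := by simp [kz_one h]
  have l1 := log_one (fun w => (Φ w : ℂ)) h0
  have l2 := log_two (fun w => (Φ w : ℂ)) h0 h1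
  have l3 := log_three (fun w => (Φ w : ℂ)) h0 h1
  have h00 : Φ [0, 0] = 0 := kz_allA h [0] (by decide)
  have h000 : Φ [0, 0, 0] = 0 := kz_allA h [0, 0] (by decide)
  have a10 : Φ [1, 0] = -Φ [0, 1] := kz_B2 h 0
  have a11 : Φ [1, 1] = -Φ [0, 0] := kz_B2 h 1
  have a100 : Φ [1, 0, 0] = -Φ [0, 1, 1] := kz_B3 h 0 0
  have a101 : Φ [1, 0, 1] = -Φ [0, 1, 0] := kz_B3 h 0 1
  have a110 : Φ [1, 1, 0] = -Φ [0, 0, 1] := kz_B3 h 1 0
  have a111 : Φ [1, 1, 1] = -Φ [0, 0, 0] := kz_B3 h 1 1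
  have a011 : Φ [0, 1, 1] = -Φ [0, 0, 1] := by linarith [kz_BAA h]
  simp only [Low, LieLow, log_nil, l1, l2, l3, a10, a11, a100,
    a101, a110, a111, a011, kz_ABA h, h00, h000, kz_one h, kz_AB h, kz_AAB h, hμ, Rat.smul_def]
  push_cast
  refine ⟨⟨?_, ?_, ?_, ?_, ?_, ?_, ?_, ?_, ?_, ?_⟩, ?_, ?_, ?_, ?_⟩ <;>
    first | trivial | (intro; trivial) | ring

end

end Pool.Agent.MP_807c24_nt.KZ20
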